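import Pool.Agent.H6.FN.TargetsG

/-!
# MP_7500ea_al, row CHN of fcn_modules: the chain of stabilisers
-/

set_option autoImplicit false

open scoped Classical

namespace Pool.Agent.H53.FN

open FI MulAction

theorem LF_mono {m n : ℕ} (hm : 1 ≤ m) (h : m ≤ n) : LF m ≤ LF n := by
  have h1 : (1 : ℝ) ≤ m := by exact_mod_cast hm
  have h2 : (m : ℝ) ≤ n := by exact_mod_cast h
  have hl : Real.log m ≤ Real.log n := Real.log_le_log (by linarith) h2
  have hl0 : 0 ≤ Real.log m := Real.log_nonneg h1
  have hl2 : Real.log m ^ 2 ≤ Real.log n ^ 2 := pow_le_pow_left₀ hl0 hl 2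
  have hr : (m : ℝ) ^ ((3 : ℝ) / 4) ≤ (n : ℝ) ^ ((3 : ℝ) / 4) :=
    Real.rpow_le_rpow (by linarith) h2 (by norm_num)
  have hs : Real.sqrt m ≤ Real.sqrt n := Real.sqrt_le_sqrt h2
  have hr0 : 0 ≤ (m : ℝ) ^ ((3 : ℝ) / 4) := Real.rpow_nonneg (by linarith) _
  have hs0 : 0 ≤ Real.sqrt m := Real.sqrt_nonneg _
  unfold LF
  have e1 : 7 * (m : ℝ) ^ ((3 : ℝ) / 4) * Real.log m ^ 2 ≤
      7 * (n : ℝ) ^ ((3 : ℝ) / 4) * Real.log n ^ 2 :=
    mul_le_mul (by linarith) hl2 (by positivity) (by linarith)
  have e2 : 30 * Real.sqrt m * Real.log m ^ 2 ≤ 30 * Real.sqrt n * Real.log n ^ 2 :=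
    mul_le_mul (by linarith) hl2 (by positivity) (by linarith)
  linarith

theorem LF_nonneg {n : ℕ} (hn : 1 ≤ n) : 0 ≤ LF n := by
  have h1 : (1 : ℝ) ≤ n := by exact_mod_cast hn
  have hl0 : 0 ≤ Real.log n := Real.log_nonneg h1
  unfold LF
  positivity

theorem chain (UNI : T_UNI) (IMS : T_IMS) : ∀ n : ℕ, ∀ (G α : Type) [Group G] [Finite α]
    [Nonempty α] [MulAction G α] [FaithfulSMul G α], Nat.card α = n → IsPreprimitive G α →
    ∃ t : ℕ, t ≤ n ∧ IsMultiplyPretransitive G α t ∧
      (Nat.card G : ℝ) ≤ Real.exp (t * Real.log n + LF n) := by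
  intro n
  induction n using Nat.strong_induction_on with
  | _ n ih =>
    intro G α _ _ _ _ _ hn hG
    have hpos : 1 ≤ n := by
      rw [← hn]
      exact Nat.card_pos
    have hpre : IsPretransitive G α := hG.toIsPretransitive
    have hone : IsMultiplyPretransitive G α 1 := is_one_pretransitive_iff.2 hpre
    have hn1 : (1 : ℝ) ≤ n := by exact_mod_cast hpos
    have hlog : 0 ≤ Real.log n := Real.log_nonneg hn1
    by_cases h2 : IsMultiplyPretransitive G α 2
    swap
    · -- uniprimitive groups
      refine ⟨1, hpos, hone, (UNI G α hG h2).trans ?_⟩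
      rw [hn]
      refine Real.exp_le_exp.2 ?_
      have h3 : 0 ≤ 30 * Real.sqrt n * Real.log n ^ 2 := by positivity
      unfold LF
      push_cast
      linarith
    by_cases hn2 : n = 1
    · -- one point
      subst hn2
      have hsub : Subsingleton α := (Nat.card_eq_one_iff_unique.1 hn).1
      have hG1 : Subsingleton G := by
        refine ⟨fun g h => ?_⟩
        exact FaithfulSMul.eq_of_smul_eq_smul (α := α) (fun a => Subsingleton.elim _ _)
      refine ⟨1, le_rfl, hone, ?_⟩
      have hc : Nat.card G = 1 := Nat.card_eq_one_iff_unique.2 ⟨hG1, inferInstance⟩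
      rw [hc]
      have := LF_nonneg (n := 1) le_rfl
      have h3 : (0 : ℝ) ≤ ((1 : ℕ) : ℝ) * Real.log ((1 : ℕ) : ℝ) + LF 1 := by
        simp only [Nat.cast_one, Real.log_one, mul_zero, zero_add]
        exact this
      have := Real.one_le_exp h3
      exact_mod_cast this
    obtain ⟨x0⟩ := (inferInstance : Nonempty α)
    by_cases h4 : IsPreprimitive (stabilizer G x0) (SubMulAction.ofStabilizer G x0)
    swap
    · refine ⟨1, hpos, hone, (IMS G α h2 x0 h4).trans ?_⟩
      rw [hn]
      refine Real.exp_le_exp.2 ?_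
      have h3 : 0 ≤ 7 * (n : ℝ) ^ ((3 : ℝ) / 4) * Real.log n ^ 2 := by positivity
      unfold LF
      push_cast
      linarith
    -- the stabiliser is primitive
    have hcard : Nat.card (SubMulAction.ofStabilizer G x0) = n - 1 := by
      rw [← hn]
      exact SubMulAction.nat_card_ofStabilizer_eq G x0
    have hne : Nonempty (SubMulAction.ofStabilizer G x0) := by
      have : 0 < Nat.card (SubMulAction.ofStabilizer G x0) := by omega
      exact (Nat.card_pos_iff.1 this).1
    have hfin : Finite (SubMulAction.ofStabilizer G x0) := by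
      have : 0 < Nat.card (SubMulAction.ofStabilizer G x0) := by omega
      exact (Nat.card_pos_iff.1 this).2
    have hfaith : FaithfulSMul (stabilizer G x0) (SubMulAction.ofStabilizer G x0) := by
      refine ⟨fun {g h} hgh => ?_⟩
      refine Subtype.ext ?_
      refine FaithfulSMul.eq_of_smul_eq_smul (α := α) (fun a => ?_)
      by_cases ha : a = x0
      · rw [ha]
        exact (mem_stabilizer_iff.1 g.2).trans (mem_stabilizer_iff.1 h.2).symm
      · exact congrArg Subtype.val (hgh ⟨a, ha⟩)
    obtain ⟨t, ht, htr, hb⟩ := ih (n - 1) (by omega) (stabilizer G x0)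
      (SubMulAction.ofStabilizer G x0) hcard h4
    refine ⟨t + 1, by omega, ?_, ?_⟩
    · exact SubMulAction.ofStabilizer.isMultiplyPretransitive.2 htr
    · have hidx : (stabilizer G x0).index = n := by
        rw [← hn]
        exact index_stabilizer_of_transitive G x0
      have hcG : (Nat.card G : ℝ) = (Nat.card (stabilizer G x0) : ℝ) * n := by
        rw [← Subgroup.card_mul_index (stabilizer G x0), hidx]
        push_cast
        ring
      have hm : LF (n - 1) ≤ LF n := LF_mono (by omega) (by omega)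
      have hn1' : (1 : ℝ) ≤ ((n - 1 : ℕ) : ℝ) := by
        have : 1 ≤ n - 1 := by omega
        exact_mod_cast this
      have hl : Real.log ((n - 1 : ℕ) : ℝ) ≤ Real.log n := by
        refine Real.log_le_log (by linarith) ?_
        exact_mod_cast Nat.sub_le n 1
      have hl' : (t : ℝ) * Real.log ((n - 1 : ℕ) : ℝ) ≤ t * Real.log n :=
        mul_le_mul_of_nonneg_left hl (Nat.cast_nonneg _)
      have hexp : (n : ℝ) = Real.exp (Real.log n) := (Real.exp_log (by linarith)).symm
      rw [hcG]
      calc (Nat.card (stabilizer G x0) : ℝ) * n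
          ≤ Real.exp (t * Real.log ((n - 1 : ℕ) : ℝ) + LF (n - 1)) * n :=
            mul_le_mul_of_nonneg_right hb (by linarith)
        _ = Real.exp (t * Real.log ((n - 1 : ℕ) : ℝ) + LF (n - 1)) * Real.exp (Real.log n) := by
            rw [← hexp]
        _ = Real.exp (t * Real.log ((n - 1 : ℕ) : ℝ) + LF (n - 1) + Real.log n) := by
            rw [← Real.exp_add]
        _ ≤ Real.exp (((t + 1 : ℕ) : ℝ) * Real.log n + LF n) := by
            refine Real.exp_le_exp.2 ?_
            push_cast
            linarith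

theorem pf_CHN (UNI : T_UNI) (IMS : T_IMS) : T_CHN := by
  intro G α _ _ _ _ _ hG
  exact chain UNI IMS (Nat.card α) G α rfl hG

end Pool.Agent.H53.FN
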